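import Pool.Agent.Q237.LR.Stm5

/-! Project LR (helper237), job SHG (helper18): shift covariance -/

set_option autoImplicit false

namespace Pool.Agent.Q18.LR5

open MeasureTheory ProbabilityTheory Set Filter Topology H10PL Pool.Agent.Q237.LR2
  Pool.Agent.Q237.LR3 Pool.Agent.Q237.LR4 Pool.Agent.Q237.LR5

variable {d : ℕ} {T0 : (Fin d → ℤ) → (Fin d → ℤ) → ℝ} {κ : (Fin d → ℤ) → ℝ}

/-- the finite volume functions are the imaginary parts -/
theorem PL_eq (n : ℕ) (x : Fin d → ℤ) (E η : ℝ) (V : (Fin d → ℤ) → ℝ)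
    (s : Sym2 (Fin d → ℤ) → Bool) :
    PL T0 κ n η (bx d n) x (E, V, s) = (Gn T0 κ n x E η V s).im := by
  unfold PL Gn
  by_cases hx : x ∈ bx d n
  · rw [dif_pos hx, dif_pos hx]
    rfl
  · rw [dif_neg hx, dif_neg hx]
    simp

/-- the limit -/
theorem gs_eq (x : Fin d → ℤ) (E η : ℝ) (V : (Fin d → ℤ) → ℝ)
    (s : Sym2 (Fin d → ℤ) → Bool) (c : ℂ)
    (h : Tendsto (fun n : ℕ => Gn T0 κ n x E η V s) atTop (𝓝 c)) :
    gs T0 κ η x (E, V, s) = ENNReal.ofReal c.im := by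
  unfold gs
  have h1 : Tendsto (fun n : ℕ => ENNReal.ofReal (PL T0 κ n η (bx d n) x (E, V, s))) atTop
      (𝓝 (ENNReal.ofReal c.im)) := by
    simp only [PL_eq]
    exact (ENNReal.continuous_ofReal.tendsto _).comp ((Complex.continuous_im.tendsto _).comp h)
  exact h1.liminf_eq

/-- the shift of a solution -/
theorem sol_shift (hT : ∀ a y w, T0 (y + a) (w + a) = T0 y w) {s : Sym2 (Fin d → ℤ) → Bool}
    {V : (Fin d → ℤ) → ℝ} {z : ℂ} {x : Fin d → ℤ} {u : (Fin d → ℤ) → ℂ}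
    (h : Sol T0 κ s V z x u) : Sol T0 κ (shS x s) (shV x V) z 0 (fun y => u (y + x)) := by
  have h0 : Summable fun y => ‖u (y + x)‖ ^ 2 := by
    have h1 := ((Equiv.addRight x).summable_iff (f := fun y => ‖u y‖ ^ 2)).mpr h.1
    exact h1
  refine ⟨h0, fun y => ?_⟩
  have h2 := h.2 (y + x)
  have t1 : (∑' w, (T0 y w : ℂ) * u (w + x)) = ∑' w, (T0 (y + x) w : ℂ) * u w := by
    rw [← (Equiv.addRight x).tsum_eq (fun w => (T0 (y + x) w : ℂ) * u w)]
    refine tsum_congr fun w => ?_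
    rw [Equiv.coe_addRight, hT]
  have t2 : (∑' w, ((sg (shS x s s(y, w)) * κ (y - w) : ℝ) : ℂ) * u (w + x)) =
      ∑' w, ((sg (s s(y + x, w)) * κ (y + x - w) : ℝ) : ℂ) * u w := by
    rw [← (Equiv.addRight x).tsum_eq
      (fun w => ((sg (s s(y + x, w)) * κ (y + x - w) : ℝ) : ℂ) * u w)]
    refine tsum_congr fun w => ?_
    rw [Equiv.coe_addRight, add_sub_add_right_eq_sub]
    rfl
  have e1 : HK T0 κ (shS x s) (shV x V) (fun y => u (y + x)) y = HK T0 κ s V u (y + x) := by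
    unfold HK
    exact congrArg₂ (· + ·) (congrArg₂ (· + ·) t1 t2) rfl
  rw [e1, h2]
  congr 1
  by_cases hy : y = 0
  · rw [if_pos hy, if_pos (by rw [hy, zero_add])]
  · rw [if_neg hy, if_neg (fun h => hy (by simpa using h))]

theorem shg : S_UNQ → S_CNV → S_SHG := by
  intro hu hc d T0 κ ρ0 b hA hT s x hs hs' V E η hη
  obtain ⟨u, hu1, hu2⟩ := hc d T0 κ ρ0 b hA s hs V x E η hη
  obtain ⟨u', hu1', hu2'⟩ := hc d T0 κ ρ0 b hA (shS x s) hs' (shV x V) 0 E η hη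
  rw [gs_eq x E η V s _ hu2, gs_eq 0 E η (shV x V) (shS x s) _ hu2']
  have hz : (zE E η).im ≠ 0 := by
    unfold zE
    simp [hη.ne']
  have h1 := hu d T0 κ ρ0 b hA (shS x s) hs' (shV x V) (zE E η) 0 _ _ hz (sol_shift hT hu1) hu1'
  rw [← h1]
  simp

end Pool.Agent.Q18.LR5
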